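import Pool.Agent.R685.LieSup3

set_option autoImplicit false

/-!
`Malc` has a solvable subvariety (of index 3) of infinite basic superrank.
-/

namespace Pool.Agent.Results.MP_af1090_al.SolvableInfiniteSuperrank

open Pool.Agent.H163R3 Pool.Agent.R685

universe u

/-- The solvability polynomials: `sv 0 i = x_i`, and `sv (k + 1) i` is the product of two copies of
`sv k` in the disjoint sets of variables `x_i, …, x_{i + 2^k - 1}` and
`x_{i + 2^k}, …, x_{i + 2^{k+1} - 1}`. -/
noncomputable def sv (F : Type u) [Field F] : ℕ → ℕ → Fr F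
  | 0, i => X F i
  | k + 1, i => sv F k i * sv F k (i + 2 ^ k)

/-- the defining identities of Malcev algebras: `x y + y x = 0` and
`J(x, y, z) x = J(x, y, x z)`, where `J(x, y, z) = (x y) z + (y z) x + (z x) y` -/
def MalcId (F : Type u) [Field F] : Set (Fr F) :=
  {X F 0 * X F 1 + X F 1 * X F 0,
    ((X F 0 * X F 1) * X F 2 + (X F 1 * X F 2) * X F 0 + (X F 2 * X F 0) * X F 1) * X F 0
      - ((X F 0 * X F 1) * (X F 0 * X F 2) + (X F 1 * (X F 0 * X F 2)) * X F 0
        + ((X F 0 * X F 2) * X F 0) * X F 1)}

/-- The set `V` of identities defines a solvable variety. -/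
def Solvable (F : Type u) [Field F] (V : Set (Fr F)) (n : ℕ) : Prop :=
  ∀ (B : Type u) [NonUnitalNonAssocRing B] [Module F B] [IsScalarTower F B B]
    [SMulCommClass F B B], InVar F V B → Sat F B (sv F n 0)

section
variable (F : Type u) [Field F] (B : Type u) [NonUnitalNonAssocRing B] [Module F B]
    [IsScalarTower F B B] [SMulCommClass F B B]

theorem sq (h : InVar F (V1 F) B) (x : B) : x * x = 0 := by
  have := h _ (show X F 0 * X F 0 ∈ V1 F by unfold V1; simp)
      (FreeNonUnitalNonAssocAlgebra.lift F fun _ => x)
  simpa [X] using this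

theorem ac (h : InVar F (V1 F) B) (x y : B) : x * y = - (y * x) := by
  have h1 := sq F B h (x + y)
  rw [add_mul, mul_add, mul_add, sq F B h, sq F B h, zero_add, add_zero] at h1
  exact eq_neg_of_add_eq_zero_left h1

theorem jac (h : InVar F (V1 F) B) (x y z : B) :
    (x * y) * z + (y * z) * x + (z * x) * y = 0 := by
  have := h _ (show (X F 0 * X F 1) * X F 2 + (X F 1 * X F 2) * X F 0
      + (X F 2 * X F 0) * X F 1 ∈ V1 F by unfold V1; simp)
      (FreeNonUnitalNonAssocAlgebra.lift F fun i => if i = 0 then x else if i = 1 then y else z)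
  simpa [X] using this

theorem V1_malcId (h : InVar F (V1 F) B) : InVar F (MalcId F) B := by
  intro f hf φ
  rcases hf with hf | hf
  · rw [hf, map_add, map_mul, map_mul, ac F B h (φ (X F 0)) (φ (X F 1)), neg_add_cancel]
  · rw [Set.mem_singleton_iff] at hf
    rw [hf]
    simp only [map_sub, map_add, map_mul]
    rw [jac F B h, jac F B h, zero_mul, sub_zero]

theorem tri (h : InVar F (V1 F) B) (a b c a' b' c' : B) :
    ((a * b) * c) * ((a' * b') * c') = 0 := by
  have := h _ (show ((X F 0 * X F 1) * X F 2) * ((X F 3 * X F 4) * X F 5) ∈ V1 F by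
    unfold V1; simp)
      (FreeNonUnitalNonAssocAlgebra.lift F fun i => if i = 0 then a else if i = 1 then b else
        if i = 2 then c else if i = 3 then a' else if i = 4 then b' else c')
  simpa [X] using this

theorem V1_solv (h : InVar F (V1 F) B) : Sat F B (sv F 3 0) := by
  intro φ
  simp only [sv, map_mul]
  exact tri F B h _ _ _ _ _ _
end

/-- Over every field `F` of characteristic `0`, the variety of algebras defined by `V1 F`
(the identities `x² = 0`, `J(x, y, z) = 0` and `((x y) z) ((t u) v) = 0`) consists of Malcev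
algebras, is solvable of index `3` (it satisfies `s_3 = 0`), and is not generated by the Grassmann
envelope of any finitely generated superalgebra (`m = 0` is the Grassmann algebra with unit,
`m = 1` the one without unit); and the Grassmann algebra exists. -/
theorem result (F : Type u) [Field F] [CharZero F] :
    (∀ (B : Type u) [NonUnitalNonAssocRing B] [Module F B] [IsScalarTower F B B]
      [SMulCommClass F B B], InVar F (V1 F) B → InVar F (MalcId F) B) ∧
    Solvable F (V1 F) 3 ∧
    (∃ (G : Type u) (_ : Ring G) (_ : Algebra F G) (e : ℕ → G), IsGrassmann F e) ∧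
    ∀ (G : Type u) [Ring G] [Algebra F G] (e : ℕ → G), IsGrassmann F e →
      ∀ m : ℕ, ¬ FinSuperrank F e m (V1 F) :=
  ⟨fun B _ _ _ _ h => V1_malcId F B h, fun B _ _ _ _ h => V1_solv F B h, exists_grassmann F,
    fun _ _ _ _ he m => not_finSuperrank he m⟩

end Pool.Agent.Results.MP_af1090_al.SolvableInfiniteSuperrank
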